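import Pool.Agent.Lib.MP_6bc78b_nt.MS.QZ.Iface
import Pool.Agent.Lib.MP_6bc78b_nt.MS.P1.LSER

/-! Project MS, Part QZ, module CFB: length and size of the coefficients. -/

set_option autoImplicit false

open Complex Filter Topology MeasureTheory ArithmeticFunction

namespace Pool.Agent.Lib.MP_6bc78b_nt.MS.QZ.H67

open Pool.Agent.Lib.MP_6bc78b_nt.MS Pool.Agent.Lib.MP_6bc78b_nt.MS.P1
open Pool.Agent.Lib.MP_6bc78b_nt.MS.QZ

/-- `∑ |f(n)| / n^2 ≤ A` and `f` is supported on the numbers up to `X`. -/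
structure Bd (A X : ℝ) (f : ArithmeticFunction ℝ) : Prop where
  sm : ASum 2 f
  an : AN 2 f ≤ A
  su : ∀ n : ℕ, f n ≠ 0 → (n : ℝ) ≤ X

theorem an_nonneg (f : ArithmeticFunction ℝ) : 0 ≤ AN 2 f :=
  tsum_nonneg fun n => mul_nonneg (abs_nonneg _) (Real.rpow_nonneg (Nat.cast_nonneg n) _)

theorem Bd.mono {A B X Y : ℝ} {f : ArithmeticFunction ℝ} (h : Bd A X f) (hA : A ≤ B)
    (hX : X ≤ Y) : Bd B Y f :=
  ⟨h.sm, h.an.trans hA, fun n hn => (h.su n hn).trans hX⟩

theorem bd_one : Bd 1 1 1 := by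
  refine ⟨?_, ?_, ?_⟩
  · refine (LSER.finsupp 1 1 (fun n hn => ?_) 2).1
    have : 1 < n := by exact_mod_cast hn
    exact ArithmeticFunction.one_apply_ne (by omega)
  · unfold AN
    rw [tsum_eq_single 1]
    · simp
    · intro n hn
      rw [ArithmeticFunction.one_apply_ne hn]
      simp
  · intro n hn
    have : n = 1 := by
      by_contra h
      exact hn (ArithmeticFunction.one_apply_ne h)
    rw [this]
    simp

theorem Bd.mul {A B X Y : ℝ} {f g : ArithmeticFunction ℝ} (hf : Bd A X f) (hg : Bd B Y g) :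
    Bd (A * B) (X * Y) (f * g) := by
  obtain ⟨h1, h2, -⟩ := LSER.conv 2 f g hf.sm hg.sm
  refine ⟨h1, h2.trans (mul_le_mul hf.an hg.an (an_nonneg g) ((an_nonneg f).trans hf.an)), ?_⟩
  intro n hn
  rw [ArithmeticFunction.mul_apply] at hn
  obtain ⟨p, hp, hp2⟩ := Finset.exists_ne_zero_of_sum_ne_zero hn
  have h3 := hf.su p.1 (left_ne_zero_of_mul hp2)
  have h4 := hg.su p.2 (right_ne_zero_of_mul hp2)
  rw [← (Nat.mem_divisorsAntidiagonal.1 hp).1]
  push_cast
  exact mul_le_mul h3 h4 (Nat.cast_nonneg _) ((Nat.cast_nonneg _).trans h3)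

theorem Bd.pow {A X : ℝ} {f : ArithmeticFunction ℝ} (hf : Bd A X f) (k : ℕ) :
    Bd (A ^ k) (X ^ k) (f ^ k) := by
  induction k with
  | zero => simpa using bd_one
  | succ k ih =>
    rw [pow_succ, pow_succ, pow_succ]
    exact ih.mul hf

theorem bd_prod {A X : ℕ → ℝ} {f : ℕ → ArithmeticFunction ℝ} (s : Finset ℕ)
    (h : ∀ i ∈ s, Bd (A i) (X i) (f i)) : Bd (∏ i ∈ s, A i) (∏ i ∈ s, X i) (∏ i ∈ s, f i) := by
  classical
  induction s using Finset.induction_on with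
  | empty => simpa using bd_one
  | insert a s ha ih =>
    rw [Finset.prod_insert ha, Finset.prod_insert ha, Finset.prod_insert ha]
    exact (h a (Finset.mem_insert_self a s)).mul
      (ih fun i hi => h i (Finset.mem_insert_of_mem hi))

theorem pS_apply (S : Finset ℕ) (n : ℕ) : pS S n = if n ∈ S ∧ n.Prime then 1 else 0 := rfl

theorem bd_pS (S : Finset ℕ) (b : ℝ) (hS : ∀ p ∈ S, (p : ℝ) ≤ b) : Bd 1 b (pS S) := by
  have hz : ∀ n ∉ S.filter Nat.Prime, |pS S n| * (n : ℝ) ^ (-(2 : ℝ)) = 0 := by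
    intro n hn
    rw [pS_apply, if_neg (fun h => hn (Finset.mem_filter.2 h))]
    simp
  refine ⟨summable_of_ne_finset_zero hz, ?_, ?_⟩
  · unfold AN
    rw [tsum_eq_sum hz]
    have h1 : ∀ n ∈ S.filter Nat.Prime, |pS S n| * (n : ℝ) ^ (-(2 : ℝ)) = ((n : ℝ) ^ 2)⁻¹ := by
      intro n hn
      rw [pS_apply, if_pos (Finset.mem_filter.1 hn), abs_one, one_mul,
        Real.rpow_neg (Nat.cast_nonneg n)]
      norm_cast
    rw [Finset.sum_congr rfl h1]
    set N : ℕ := S.sup id + 1 with hN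
    have hsub : S.filter Nat.Prime ⊆ Finset.Ioc 1 N := by
      intro n hn
      rw [Finset.mem_filter] at hn
      rw [Finset.mem_Ioc]
      have := Finset.le_sup (f := id) hn.1
      simp only [id] at this
      exact ⟨hn.2.one_lt, by omega⟩
    refine (Finset.sum_le_sum_of_subset_of_nonneg hsub fun i _ _ => by positivity).trans ?_
    refine (sum_Ioc_inv_sq_le_sub one_ne_zero (by omega)).trans ?_
    have : (0 : ℝ) ≤ ((N : ℝ))⁻¹ := by positivity
    rw [Nat.cast_one, inv_one]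
    linarith
  · intro n hn
    rw [pS_apply] at hn
    refine hS n ?_
    by_contra h
    exact hn (if_neg fun h3 => h h3.1)

theorem ac_apply (α : ℝ) (S : Finset ℕ) (K n : ℕ) : ac α S K n =
    ∑ j ∈ Finset.range (K + 1), α ^ j / (j.factorial : ℝ) * (pS S ^ j) n := rfl

theorem bd_ac {α : ℝ} (hα : |α| ≤ 1) (S : Finset ℕ) (b : ℝ) (hb : 1 ≤ b)
    (hS : ∀ p ∈ S, (p : ℝ) ≤ b) (K : ℕ) : Bd (Real.exp 1) (b ^ K) (ac α S K) := by
  have hp : ∀ j, Bd 1 (b ^ j) (pS S ^ j) := fun j => by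
    have := (bd_pS S b hS).pow j
    rwa [one_pow] at this
  have hle : ∀ n : ℕ, |ac α S K n| * (n : ℝ) ^ (-(2 : ℝ)) ≤
      ∑ j ∈ Finset.range (K + 1), 1 / (j.factorial : ℝ) *
        (|(pS S ^ j) n| * (n : ℝ) ^ (-(2 : ℝ))) := by
    intro n
    have h0 : (0 : ℝ) ≤ (n : ℝ) ^ (-(2 : ℝ)) := Real.rpow_nonneg (Nat.cast_nonneg n) _
    rw [ac_apply]
    refine (mul_le_mul_of_nonneg_right (Finset.abs_sum_le_sum_abs _ _) h0).trans ?_
    rw [Finset.sum_mul]
    refine Finset.sum_le_sum fun j _ => ?_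
    rw [← mul_assoc]
    refine mul_le_mul_of_nonneg_right ?_ h0
    rw [abs_mul]
    refine mul_le_mul_of_nonneg_right ?_ (abs_nonneg _)
    rw [abs_div, abs_pow, Nat.abs_cast]
    exact div_le_div_of_nonneg_right (pow_le_one₀ (abs_nonneg _) hα) (Nat.cast_nonneg _)
  have hsj : ∀ j ∈ Finset.range (K + 1), Summable fun n : ℕ => 1 / (j.factorial : ℝ) *
      (|(pS S ^ j) n| * (n : ℝ) ^ (-(2 : ℝ))) := fun j _ => (hp j).sm.mul_left _
  have hsum : Summable fun n : ℕ => ∑ j ∈ Finset.range (K + 1), 1 / (j.factorial : ℝ) *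
      (|(pS S ^ j) n| * (n : ℝ) ^ (-(2 : ℝ))) := summable_sum hsj
  have hs : ASum 2 (ac α S K) := Summable.of_nonneg_of_le
    (fun n => mul_nonneg (abs_nonneg _) (Real.rpow_nonneg (Nat.cast_nonneg n) _)) hle hsum
  refine ⟨hs, ?_, ?_⟩
  · unfold AN
    refine (Summable.tsum_le_tsum hle hs hsum).trans ?_
    rw [Summable.tsum_finsetSum hsj]
    refine le_trans (Finset.sum_le_sum fun j _ => ?_)
      (Real.sum_le_exp_of_nonneg zero_le_one (K + 1))
    rw [tsum_mul_left, one_pow]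
    have h1 : (0 : ℝ) ≤ 1 / (j.factorial : ℝ) := by positivity
    calc 1 / (j.factorial : ℝ) * ∑' n : ℕ, |(pS S ^ j) n| * (n : ℝ) ^ (-(2 : ℝ))
        ≤ 1 / (j.factorial : ℝ) * 1 := mul_le_mul_of_nonneg_left (hp j).an h1
      _ = 1 / (j.factorial : ℝ) := mul_one _
  · intro n hn
    rw [ac_apply] at hn
    obtain ⟨j, hj, hj2⟩ := Finset.exists_ne_zero_of_sum_ne_zero hn
    refine ((hp j).su n (right_ne_zero_of_mul hj2)).trans ?_
    rw [Finset.mem_range] at hj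
    exact pow_le_pow_right₀ hb (by omega)

theorem mem_SS {T : ℝ} (i p : ℕ) (hT : 1 ≤ T) (hp : p ∈ SS T i) : (p : ℝ) ≤ yy T i := by
  have h0 : 0 ≤ yy T i := by
    unfold yy
    exact Real.rpow_nonneg (by linarith) _
  have key : ∀ a : ℝ, p ∈ prs a (yy T i) → (p : ℝ) ≤ yy T i := by
    intro a h
    unfold prs at h
    rw [Finset.mem_filter, Finset.mem_Icc] at h
    exact (Nat.cast_le.2 h.1.2).trans (Nat.floor_le h0)
  cases i with
  | zero => exact key _ hp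
  | succ i => exact key _ hp

/-- the bound for the coefficients `gA`. -/
theorem bd_gA {T α : ℝ} {j r : ℕ} (hT : 1 < T) (hα : |α| ≤ 1)
    (hdl : ∀ i, 0 ≤ dl T i)
    (hs : ∑ i ∈ Finset.range j, dl T i * KJ T i ≤ 1 / 20) (hr : dl T j * r ≤ 1 / 20) :
    Bd (Real.exp j) (T ^ (1 / 10 : ℝ)) (gA α T j r) := by
  have hT0 : 0 < T := by linarith
  have hy : ∀ i, 1 ≤ yy T i := fun i => Real.one_le_rpow hT.le (hdl i)
  have h1 := bd_prod (A := fun _ => Real.exp 1) (X := fun i => yy T i ^ KJ T i)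
    (f := fun i => ac α (SS T i) (KJ T i)) (Finset.range j) fun i _ =>
      bd_ac hα (SS T i) (yy T i) (hy i) (fun p hp => mem_SS i p hT.le hp) (KJ T i)
  have h2 := (bd_pS (SS T j) (yy T j) fun p hp => mem_SS j p hT.le hp).pow r
  have h3 := h1.mul h2
  have hpw : ∀ (i K : ℕ), yy T i ^ K = T ^ (dl T i * K) := by
    intro i K
    unfold yy
    rw [← Real.rpow_natCast, ← Real.rpow_mul hT0.le]
  refine h3.mono ?_ ?_
  · rw [one_pow, mul_one, Finset.prod_const, Finset.card_range, ← Real.exp_nat_mul, mul_one]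
  · simp only [hpw]
    rw [← Real.rpow_sum_of_pos hT0, ← Real.rpow_add hT0]
    exact Real.rpow_le_rpow_of_exponent_le hT.le (by linarith)

/-- from the weighted bound to the pointwise bound. -/
theorem point {A T x : ℝ} {f : ArithmeticFunction ℝ} (hT : 3 < T) (hx : x ≤ 3 / 5)
    (hA : A ≤ T ^ (3 / 2 : ℝ)) (hf : Bd A (T ^ x) f) (n : ℕ) :
    |f n| ≤ T ^ (3 : ℝ) ∧ (f n ≠ 0 → (n : ℝ) ≤ T ^ x) := by
  refine ⟨?_, hf.su n⟩
  have hT0 : 0 < T := by linarith
  by_cases h0 : f n = 0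
  · rw [h0, abs_zero]
    positivity
  have hn0 : n ≠ 0 := fun h => h0 (by rw [h]; exact f.map_zero)
  have hn : (0 : ℝ) < (n : ℝ) := by exact_mod_cast Nat.pos_of_ne_zero hn0
  have h1 : |f n| * (n : ℝ) ^ (-(2 : ℝ)) ≤ A := by
    refine le_trans ?_ hf.an
    exact hf.sm.le_tsum n fun m _ =>
      mul_nonneg (abs_nonneg _) (Real.rpow_nonneg (Nat.cast_nonneg m) _)
  have h2 : |f n| ≤ A * (n : ℝ) ^ (2 : ℝ) := by
    rw [Real.rpow_neg hn.le, ← div_eq_mul_inv, div_le_iff₀ (by positivity)] at h1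
    exact h1
  have h3 : (n : ℝ) ^ (2 : ℝ) ≤ T ^ (6 / 5 : ℝ) := by
    calc (n : ℝ) ^ (2 : ℝ) ≤ (T ^ (3 / 5 : ℝ)) ^ (2 : ℝ) := by
          refine Real.rpow_le_rpow hn.le ((hf.su n h0).trans ?_) (by norm_num)
          exact Real.rpow_le_rpow_of_exponent_le (by linarith) hx
      _ = T ^ (6 / 5 : ℝ) := by
          rw [← Real.rpow_mul hT0.le]
          norm_num
  have hA0 : 0 ≤ A := (an_nonneg f).trans hf.an
  calc |f n| ≤ A * (n : ℝ) ^ (2 : ℝ) := h2
    _ ≤ T ^ (3 / 2 : ℝ) * T ^ (6 / 5 : ℝ) := mul_le_mul hA h3 (by positivity) (by positivity)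
    _ = T ^ (27 / 10 : ℝ) := by
        rw [← Real.rpow_add hT0]
        norm_num
    _ ≤ T ^ (3 : ℝ) := Real.rpow_le_rpow_of_exponent_le (by linarith) (by norm_num)

/-- CFB for general `r` (module CF0) -/
theorem gen (hSCL : SclStatement) (th c1 c2 : ℝ) (hth : 0 < th) (hth2 : th < 1 / 2) :
    ∃ T0 : ℝ, 3 < T0 ∧ ∀ T : ℝ, T0 ≤ T → ∀ (α : ℝ) (j r : ℕ), |α| ≤ 1 → j ≤ JJ T →
      dl T j * r ≤ 1 / 20 → ∀ n : ℕ,
        (|(bet th c1 c2 T * gA α T j r) n| ≤ T ^ (3 : ℝ) ∧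
          ((bet th c1 c2 T * gA α T j r) n ≠ 0 → (n : ℝ) ≤ T ^ (th + 1 / 10))) ∧
        (|gA α T j r n| ≤ T ^ (3 : ℝ) ∧
          (gA α T j r n ≠ 0 → (n : ℝ) ≤ T ^ (th + 1 / 10))) := by
  obtain ⟨T0, hT0, hS⟩ := hSCL
  obtain ⟨C, hC⟩ := LSER.lser.2.2.2.2.2.2.2.1 th c1 c2 2 hth (by norm_num)
  set C' : ℝ := max C 1 with hC'
  have hC1 : 1 ≤ C' := le_max_right _ _
  refine ⟨max T0 ((C' + 1) ^ 2), lt_max_of_lt_left hT0, ?_⟩
  intro T hT α j r hα hj hr n
  have hTT : T0 ≤ T := (le_max_left _ _).trans hT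
  have hTC : (C' + 1) ^ 2 ≤ T := (le_max_right _ _).trans hT
  have hT3 : 3 < T := hT0.trans_le hTT
  have hTp : 0 < T := by linarith
  obtain ⟨hl, hJ, -, -, -, hs, -, -⟩ := hS T hTT
  have hs1 := (hs j hj).1
  have hl0 : 0 < ll T := lt_of_lt_of_le (by norm_num) hl
  have hdl : ∀ i, 0 ≤ dl T i := fun i => by
    unfold dl
    positivity
  have hg := bd_gA (r := r) (by linarith) hα hdl hs1 hr
  have hlog : 0 < Real.log T := Real.log_pos (by linarith)
  have hexp : Real.exp j ≤ Real.log T := by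
    have h1 : (j : ℝ) ≤ ll T := (Nat.cast_le.2 hj).trans hJ
    calc Real.exp j ≤ Real.exp (ll T) := Real.exp_le_exp.2 h1
      _ = Real.log T := by
          unfold ll
          exact Real.exp_log hlog
  have hlT : Real.log T ≤ T := (Real.log_le_sub_one_of_pos hTp).trans (by linarith)
  have hsq : C' ≤ T ^ (1 / 2 : ℝ) := by
    rw [← Real.sqrt_eq_rpow]
    refine le_trans ?_ (Real.sqrt_le_sqrt hTC)
    rw [Real.sqrt_sq (by linarith)]
    linarith
  have hfin : C' * Real.log T ≤ T ^ (3 / 2 : ℝ) := by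
    calc C' * Real.log T ≤ T ^ (1 / 2 : ℝ) * T := mul_le_mul hsq hlT hlog.le (by positivity)
      _ = T ^ (3 / 2 : ℝ) := by
          nth_rewrite 2 [← Real.rpow_one T]
          rw [← Real.rpow_add hTp]
          norm_num
  have hbet : Bd C' (T ^ th) (bet th c1 c2 T) := by
    refine ⟨(LSER.finsupp _ (T ^ th) (LSER.bet_zero th c1 c2 T) 2).1,
      (hC T (by linarith)).trans (le_max_left _ _), fun m hm => ?_⟩
    by_contra h
    push Not at h
    exact hm (LSER.bet_zero th c1 c2 T m h)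
  constructor
  · have h := hbet.mul hg
    rw [← Real.rpow_add hTp] at h
    refine point hT3 (by linarith) ?_ h n
    exact (mul_le_mul_of_nonneg_left hexp (by linarith)).trans hfin
  · have h : Bd (Real.exp j) (T ^ (th + 1 / 10)) (gA α T j r) :=
      hg.mono le_rfl (Real.rpow_le_rpow_of_exponent_le (by linarith) (by linarith))
    refine point hT3 (by linarith) ?_ h n
    refine hexp.trans (le_trans ?_ hfin)
    exact le_mul_of_one_le_left hlog.le hC1

/-- module CFB -/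
theorem cfb (hSCL : SclStatement) : CfbStatement := by
  intro th c1 c2 hth hth2
  obtain ⟨T1, hT1, h1⟩ := gen hSCL th c1 c2 hth hth2
  obtain ⟨T2, -, h2⟩ := hSCL
  refine ⟨max T1 T2, lt_max_of_lt_left hT1, fun T hT α j hα hj n => ?_⟩
  obtain ⟨-, -, -, -, -, hs, -, -⟩ := h2 T ((le_max_right _ _).trans hT)
  exact h1 T ((le_max_left _ _).trans hT) α j (rj T j) hα hj (hs j hj).2 n

end Pool.Agent.Lib.MP_6bc78b_nt.MS.QZ.H67
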