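import Pool.Agent.Lib.MP_6bc78b_nt.MS.QZ.Iface2
import Pool.Agent.Lib.MP_6bc78b_nt.MS.QZ.H67.Cfb

/-! Project MS, Part QZ, module CF0: length and size of the coefficients, general `r`. -/

set_option autoImplicit false

namespace Pool.Agent.Lib.MP_6bc78b_nt.MS.QZ.H67

/-- module CF0 -/
theorem cf0 (hSCL : SclStatement) : Cf0Statement :=
  fun th c1 c2 hth hth2 => gen hSCL th c1 c2 hth hth2

end Pool.Agent.Lib.MP_6bc78b_nt.MS.QZ.H67
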